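import Pool.Agent.helper84.WZ.SpecA

/-!
# wz: a small relation from a period in one position (ADJ)
-/

set_option autoImplicit false

namespace WZ

/-- sign of a run -/
def ADJ_sg (h x : ℕ) : ℤ := if x % (2 * h + 2) < 2 * h - 2 then -1 else 1

theorem ADJ_sg_abs (h x : ℕ) : |ADJ_sg h x| = 1 := by
  unfold ADJ_sg
  split_ifs <;> simp

theorem ADJ_last {h : ℕ} (hh : 3 ≤ h) {lng : ℕ → Prop} {ψ : ℕ → ℚ} (hψ : BC h lng ψ) {p x : ℕ}
    (hx : LR h lng x) (hp : x / (2 * h + 2) = p) :
    ψ x = (ADJ_sg h x : ℚ) * ψ (p * (2 * h + 2) + (2 * h - 2 + x % (2 * h + 2) % 2)) := by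
  obtain ⟨h1, h2⟩ := hx
  rw [hp] at h1
  have h3 := Nat.div_add_mod x (2 * h + 2)
  rw [hp, mul_comm] at h3
  unfold ADJ_sg
  by_cases h4 : x % (2 * h + 2) < 2 * h - 2
  · rw [if_pos h4]
    have h5 := hψ p _ h1 h4
    rw [h3] at h5
    rw [h5]
    push_cast
    ring
  · rw [if_neg h4]
    have h6 : 2 * h - 2 + x % (2 * h + 2) % 2 = x % (2 * h + 2) := by omega
    rw [h6, h3]
    simp

/-- the support of a nonzero small period -/
theorem ADJ_supp {π : ℕ → ℕ} (h1 : ∃ r s : ℕ, ∀ q, π q ≠ 0 → q = r ∨ q = s)
    (h2 : ∃ q, π q ≠ 0) : ∃ a b : ℕ, a ≤ b ∧ π a ≠ 0 ∧ π b ≠ 0 ∧ ∀ x, π x ≠ 0 → x = a ∨ x = b := by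
  obtain ⟨r, s, h⟩ := h1
  obtain ⟨q, hq⟩ := h2
  by_cases hr : π r = 0
  · have hs : ∀ x, π x ≠ 0 → x = s := by
      intro x hx
      rcases h x hx with h3 | h3
      · rw [h3] at hx
        exact absurd hr hx
      · exact h3
    have := hs q hq
    rw [this] at hq
    exact ⟨s, s, le_rfl, hq, hq, fun x hx => Or.inl (hs x hx)⟩
  · by_cases hs : π s = 0
    · refine ⟨r, r, le_rfl, hr, hr, fun x hx => Or.inl ?_⟩
      rcases h x hx with h3 | h3
      · exact h3
      · rw [h3] at hx
        exact absurd hs hx
    · rcases le_total r s with h3 | h3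
      · exact ⟨r, s, h3, hr, hs, h⟩
      · exact ⟨s, r, h3, hs, hr, fun x hx => (h x hx).symm⟩

theorem ADJ_main {h n B M : ℕ} {lng : ℕ → Prop} {Q : Set (ℕ → ℕ)} (hh : 3 ≤ h)
    (hSm : Sm B M Q) (hNC : NC Q) (hFP : FP h lng Q) {p : ℕ} (k : ℕ) :
    ∀ (π : ℕ → ℕ) (q q' : ℕ), π ∈ Q → q ≤ q' → q' - q = k → π q ≠ 0 → π q' ≠ 0 →
      (∀ x, π x ≠ 0 → x = q ∨ x = q') → LR h lng q → LR h lng q' → q / (2 * h + 2) = p →
      q' / (2 * h + 2) = p →
      ∃ d : ℤ × ℤ, d ≠ 0 ∧ |d.1| ≤ B ∧ |d.2| ≤ B ∧ Rel h M lng Q p d := by
  induction k using Nat.strong_induction_on with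
  | _ k ih =>
    intro π q q' hπ hqq hk hq hq' hsupp hL hL' hp hp'
    obtain ⟨hB, hM, -⟩ := hSm π hπ
    have hqM : q < M := by
      by_contra hc
      exact hq (hM q (by omega))
    have hqM' : q' < M := by
      by_contra hc
      exact hq' (hM q' (by omega))
    have hd := Nat.div_add_mod q (2 * h + 2)
    have hd' := Nat.div_add_mod q' (2 * h + 2)
    rw [hp] at hd
    rw [hp'] at hd'
    have hu := hL.2
    have hu' := hL'.2
    have hB1 : 1 ≤ B := (Nat.one_le_iff_ne_zero.2 hq).trans (hB q)
    rcases Nat.lt_or_ge k 1 with hk0 | hk0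
    · -- one run
      have hqe : q' = q := by omega
      rw [hqe] at hsupp
      have hz : ∀ ψ : ℕ → ℚ, Ann M Q ψ → BC h lng ψ →
          ψ (p * (2 * h + 2) + (2 * h - 2 + q % (2 * h + 2) % 2)) = 0 := by
        intro ψ hA hC
        have h1 := hA π hπ
        rw [Finset.sum_eq_single q] at h1
        · have h2 : (π q : ℚ) ≠ 0 := by exact_mod_cast hq
          have h3 := (mul_eq_zero.1 h1).resolve_right h2
          rw [ADJ_last hh hC hL hp] at h3
          refine (mul_eq_zero.1 h3).resolve_left ?_
          have h4 := ADJ_sg_abs h q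
          intro h5
          have h6 : ADJ_sg h q = 0 := by exact_mod_cast h5
          rw [h6] at h4
          simp at h4
        · intro x _ hx
          have : π x = 0 := by
            by_contra hc
            rcases hsupp x hc with h3 | h3 <;> exact hx h3
          rw [this]
          simp
        · intro hx
          exact absurd (Finset.mem_range.2 hqM) hx
      rcases Nat.mod_two_eq_zero_or_one (q % (2 * h + 2)) with h2 | h2
      · refine ⟨(1, 0), by simp, by simpa using hB1, by simp, ?_⟩
        intro ψ hA hC
        have h3 := hz ψ hA hC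
        rw [h2, add_zero] at h3
        rw [h3]
        simp
      · refine ⟨(0, 1), by simp, by simp, by simpa using hB1, ?_⟩
        intro ψ hA hC
        have h3 := hz ψ hA hC
        rw [h2, show 2 * h - 2 + 1 = 2 * h - 1 by omega] at h3
        rw [h3]
        simp
    · rcases Nat.lt_or_ge k 2 with hk1 | hk1
      · -- two neighbouring runs
        have hqe : q' = q + 1 := by omega
        have hz : ∀ ψ : ℕ → ℚ, Ann M Q ψ → BC h lng ψ →
            (ADJ_sg h q : ℚ) * (π q : ℚ) *
              ψ (p * (2 * h + 2) + (2 * h - 2 + q % (2 * h + 2) % 2)) +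
            (ADJ_sg h q' : ℚ) * (π q' : ℚ) *
              ψ (p * (2 * h + 2) + (2 * h - 2 + q' % (2 * h + 2) % 2)) = 0 := by
          intro ψ hA hC
          have h1 := hA π hπ
          have h2 : ∑ x ∈ Finset.range M, ψ x * (π x : ℚ) =
              ∑ x ∈ ({q, q'} : Finset ℕ), ψ x * (π x : ℚ) := by
            symm
            apply Finset.sum_subset
            · intro x hx
              rw [Finset.mem_insert, Finset.mem_singleton] at hx
              rw [Finset.mem_range]
              rcases hx with rfl | rfl <;> assumption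
            · intro x _ hx
              have : π x = 0 := by
                by_contra hc
                apply hx
                rw [Finset.mem_insert, Finset.mem_singleton]
                exact hsupp x hc
              rw [this]
              simp
          rw [h2, Finset.sum_pair (by omega), ADJ_last hh hC hL hp, ADJ_last hh hC hL' hp'] at h1
          rw [← h1]
          ring
        have hmod : q' % (2 * h + 2) = q % (2 * h + 2) + 1 := by omega
        have habs : ∀ x, |ADJ_sg h x * (π x : ℤ)| ≤ B := by
          intro x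
          rw [abs_mul, ADJ_sg_abs, one_mul, Nat.abs_cast]
          exact_mod_cast hB x
        have hne : ∀ x, π x ≠ 0 → ADJ_sg h x * (π x : ℤ) ≠ 0 := by
          intro x hx
          apply mul_ne_zero
          · intro h6
            have h4 := ADJ_sg_abs h x
            rw [h6] at h4
            simp at h4
          · exact_mod_cast hx
        rcases Nat.mod_two_eq_zero_or_one (q % (2 * h + 2)) with h2 | h2
        · have h3 : q' % (2 * h + 2) % 2 = 1 := by omega
          refine ⟨(ADJ_sg h q * π q, ADJ_sg h q' * π q'), ?_, habs q, habs q', ?_⟩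
          · intro h0
            exact hne q hq (congrArg Prod.fst h0)
          · intro ψ hA hC
            have h4 := hz ψ hA hC
            rw [h2, h3, add_zero, show 2 * h - 2 + 1 = 2 * h - 1 by omega] at h4
            push_cast
            linarith
        · have h3 : q' % (2 * h + 2) % 2 = 0 := by omega
          refine ⟨(ADJ_sg h q' * π q', ADJ_sg h q * π q), ?_, habs q', habs q, ?_⟩
          · intro h0
            exact hne q' hq' (congrArg Prod.fst h0)
          · intro ψ hA hC
            have h4 := hz ψ hA hC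
            rw [h2, h3, add_zero, show 2 * h - 2 + 1 = 2 * h - 1 by omega] at h4
            push_cast
            linarith
      · -- the run between
        have hdiv : (q + 1) / (2 * h + 2) = p := by
          apply le_antisymm
          · rw [← hp']
            exact Nat.div_le_div_right (by omega)
          · rw [← hp]
            exact Nat.div_le_div_right (by omega)
        have hd1 := Nat.div_add_mod (q + 1) (2 * h + 2)
        rw [hdiv] at hd1
        have hL1 : LR h lng (q + 1) := by
          refine ⟨?_, by omega⟩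
          rw [hdiv, ← hp]
          exact hL.1
        obtain ⟨π', hπ', h1, h2⟩ := hFP (q + 1) hL1
        obtain ⟨a, b, hab, ha, hb, hs'⟩ := ADJ_supp (hSm π' hπ').2.2 ⟨q + 1, h1⟩
        have hqa : q ≤ a := by
          by_contra hc
          have hb1 : b = q + 1 := by
            rcases hs' (q + 1) h1 with h3 | h3 <;> omega
          exact hNC π' hπ' π hπ a q (q + 1) q' (by omega) (by omega) (by omega) ha h1 hq hq'
        have hbq : b ≤ q' := by
          by_contra hc
          exact hNC π hπ π' hπ' q (q + 1) q' b (by omega) (by omega) (by omega) hq hq' h1 hb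
        have hpa : a / (2 * h + 2) = p := by
          apply le_antisymm
          · rw [← hp']
            exact Nat.div_le_div_right (by omega)
          · rw [← hp]
            exact Nat.div_le_div_right (by omega)
        have hpb : b / (2 * h + 2) = p := by
          apply le_antisymm
          · rw [← hp']
            exact Nat.div_le_div_right (by omega)
          · rw [← hp]
            exact Nat.div_le_div_right (by omega)
        refine ih (b - a) ?_ π' a b hπ' hab rfl ha hb hs' (h2 a ha).1 (h2 b hb).1 hpa hpb
        rcases hs' (q + 1) h1 with h3 | h3 <;> omega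

theorem ADJ : ADJ_stmt := by
  intro h n B M lng Q hh _ _ hSm hNC hFP p _ ⟨π, hπ, hne, hs⟩
  obtain ⟨a, b, hab, ha, hb, hs'⟩ := ADJ_supp (hSm π hπ).2.2 hne
  exact ADJ_main (n := n) hh hSm hNC hFP (b - a) π a b hπ hab rfl ha hb hs' (hs a ha).1 (hs b hb).1
    (hs a ha).2 (hs b hb).2

end WZ
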