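import Pool.Agent.helper84.WZ.SpecB

/-!
# wz: homomorphisms between words and marks (EM)
-/

set_option autoImplicit false

namespace WZ

open Filter

theorem EM_list {a : PL} (P Q l r : List PL) (h : P ++ Q = l ++ [a] ++ r) :
    (∃ r', P = l ++ [a] ++ r' ∧ r = r' ++ Q) ∨ ∃ l', Q = l' ++ [a] ++ r ∧ l = P ++ l' := by
  rcases List.append_eq_append_iff.1 h with ⟨s, h1, h2⟩ | ⟨s, h1, h2⟩
  · rcases List.eq_nil_or_concat s with h3 | ⟨l', b, h3⟩
    · subst h3
      left
      refine ⟨[], ?_, ?_⟩
      · rw [List.append_nil] at h1 ⊢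
        exact h1.symm
      · rw [List.nil_append] at h2 ⊢
        exact h2.symm
    · subst h3
      right
      rw [List.concat_eq_append, ← List.append_assoc] at h1
      have h4 := List.append_inj' h1 rfl
      refine ⟨l', ?_, h4.1⟩
      rw [h2, List.concat_eq_append, ← h4.2]
  · left
    exact ⟨s, h1, h2⟩

theorem EM_fin {α : Type} (P : TW) (q : Filter α)
    (A : TW → ℤ × ℤ → ℤ × ℤ → TW → α → Prop)
    (h : ∀ l v v' r, P = l * FreeMonoid.of (PL.m v v') * r → ∀ᶠ z in q, A l v v' r z) :
    ∀ᶠ z in q, ∀ l v v' r, P = l * FreeMonoid.of (PL.m v v') * r → A l v v' r z := by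
  have key : ∀ n : ℕ, ∀ᶠ z in q, ∀ l v v' r, P = l * FreeMonoid.of (PL.m v v') * r →
      l.toList.length = n → A l v v' r z := by
    intro n
    by_cases hex : ∃ l v v' r, P = l * FreeMonoid.of (PL.m v v') * r ∧ l.toList.length = n
    · obtain ⟨l0, v0, v0', r0, h0, hn⟩ := hex
      filter_upwards [h l0 v0 v0' r0 h0] with z hz l v v' r h1 h2
      have h3 : l.toList ++ ([PL.m v v'] ++ r.toList) =
          l0.toList ++ ([PL.m v0 v0'] ++ r0.toList) := by
        have h4 := congrArg FreeMonoid.toList (h1.symm.trans h0)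
        rw [← List.append_assoc, ← List.append_assoc]
        exact h4
      obtain ⟨e1, e2⟩ := List.append_inj h3 (h2.trans hn.symm)
      obtain ⟨e3, e4⟩ := List.append_inj e2 rfl
      have e5 : l = l0 := e1
      have e6 : r = r0 := e4
      simp only [List.cons.injEq, PL.m.injEq, and_true] at e3
      rw [e5, e6, e3.1, e3.2]
      exact hz
    · refine Eventually.of_forall (fun z l v v' r h1 h2 => absurd ⟨l, v, v', r, h1, h2⟩ hex)
  have key2 : ∀ᶠ z in q, ∀ n ∈ Finset.range (P.toList.length + 1), ∀ l v v' r,
      P = l * FreeMonoid.of (PL.m v v') * r → l.toList.length = n → A l v v' r z := by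
    rw [Filter.eventually_all_finset]
    intro n _
    exact key n
  filter_upwards [key2] with z hz l v v' r h1
  refine hz l.toList.length ?_ l v v' r h1 rfl
  rw [Finset.mem_range, h1]
  have : (l * FreeMonoid.of (PL.m v v') * r).toList =
      l.toList ++ [PL.m v v'] ++ r.toList := rfl
  rw [this]
  simp only [List.length_append]
  omega

theorem EM : EM_stmt := by
  refine ⟨?_, ?_, ?_, ?_, ?_, ?_⟩
  · intro w
    show List.map PL.fst (List.map Lt.pl w.toList) = w.toList
    rw [List.map_map]
    have : PL.fst ∘ Lt.pl = id := by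
      funext x
      cases x <;> rfl
    rw [this, List.map_id]
  · intro w
    show List.map PL.snd (List.map Lt.pl w.toList) = w.toList
    rw [List.map_map]
    have : PL.snd ∘ Lt.pl = id := by
      funext x
      cases x <;> rfl
    rw [this, List.map_id]
  · intro w l r v v' h
    have h1 : List.map Lt.pl w.toList = l.toList ++ [PL.m v v'] ++ r.toList :=
      congrArg FreeMonoid.toList h
    have h2 : PL.m v v' ∈ List.map Lt.pl w.toList := by
      rw [h1]
      simp
    obtain ⟨x, _, hx⟩ := List.mem_map.1 h2
    cases x <;> exact PL.noConfusion hx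
  · intro P Q l r v v' h
    exact EM_list P.toList Q.toList l.toList r.toList h
  · intro P q A h
    exact EM_fin P q A h
  · intro P q A h
    exact EM_fin P q A h

end WZ
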