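import Pool.Agent.helper84.WZ.SpecA

/-!
# wz: scaling (PSI)
-/

set_option autoImplicit false

namespace WZ

open Filter

/-- multiplication by `D` on `ℤ²` -/
def PSI_mul (D : ℤ) : Multiplicative (ℤ × ℤ) →* Multiplicative (ℤ × ℤ) where
  toFun v := Multiplicative.ofAdd (D • v.toAdd)
  map_one' := by simp
  map_mul' v w := by simp [← ofAdd_add]

/-- the endomorphism of `ℤ² * ℤ` -/
noncomputable def PSI_end (D : ℤ) : DZ.G →* DZ.G :=
  Monoid.Coprod.lift (Monoid.Coprod.inl.comp (PSI_mul D)) Monoid.Coprod.inr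

theorem PSI_end_val (D : ℤ) (s : W) : PSI_end D (val 1 s) = val D s := by
  have h : (PSI_end D).comp (val 1) = val D := by
    apply FreeMonoid.hom_eq
    intro x
    rw [MonoidHom.comp_apply]
    unfold val
    rw [FreeMonoid.lift_eval_of, FreeMonoid.lift_eval_of]
    rcases x with (_ | _) | v
    · show PSI_end D (Monoid.Coprod.inr (Multiplicative.ofAdd (1 : ℤ)))⁻¹ =
        (Monoid.Coprod.inr (Multiplicative.ofAdd (1 : ℤ)))⁻¹
      rw [map_inv]
      congr 1
    · show PSI_end D (Monoid.Coprod.inr (Multiplicative.ofAdd (1 : ℤ))) =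
        Monoid.Coprod.inr (Multiplicative.ofAdd (1 : ℤ))
      exact Monoid.Coprod.lift_apply_inr _ _ _
    · show PSI_end D (DZ.zz ((1 : ℤ) • v)) = DZ.zz (D • v)
      rw [one_smul]
      exact Monoid.Coprod.lift_apply_inl _ _ _
  exact DFunLike.congr_fun h s

/-- the upper unipotent matrices, scaled -/
noncomputable def PSI_up (c : ℝ) : Multiplicative (ℤ × ℤ) →* Matrix (Fin 2) (Fin 2) ℝ where
  toFun v := !![1, c * ((v.toAdd.1 : ℝ) + v.toAdd.2 * √2); 0, 1]
  map_one' := by
    ext i j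
    fin_cases i <;> fin_cases j <;> simp
  map_mul' v w := by
    ext i j
    fin_cases i <;> fin_cases j <;> simp [Matrix.mul_apply, Fin.sum_univ_two]
    ring

/-- the scaled representation -/
noncomputable def PSI_rep (c : ℝ) : DZ.G →* Matrix (Fin 2) (Fin 2) ℝ :=
  Monoid.Coprod.lift (PSI_up c) DZ.lowerHom

theorem PSI_rep_val (D : ℕ) (hD : 1 ≤ D) (s : W) :
    PSI_rep (1 / (D : ℝ)) (val D s) = DZ.rep (val 1 s) := by
  have hD0 : (D : ℝ) ≠ 0 := by
    have : D ≠ 0 := by omega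
    exact_mod_cast this
  have h : (PSI_rep (1 / (D : ℝ))).comp (val D) = DZ.rep.comp (val 1) := by
    apply FreeMonoid.hom_eq
    intro x
    rw [MonoidHom.comp_apply, MonoidHom.comp_apply]
    unfold val
    rw [FreeMonoid.lift_eval_of, FreeMonoid.lift_eval_of]
    have hinr : ∀ y : Multiplicative ℤ, PSI_rep (1 / (D : ℝ)) (Monoid.Coprod.inr y) =
        DZ.rep (Monoid.Coprod.inr y) := by
      intro y
      exact (Monoid.Coprod.lift_apply_inr _ _ _).trans (Monoid.Coprod.lift_apply_inr _ _ _).symm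
    rcases x with (_ | _) | v
    · show PSI_rep (1 / (D : ℝ)) (Monoid.Coprod.inr (Multiplicative.ofAdd (1 : ℤ)))⁻¹ =
        DZ.rep (Monoid.Coprod.inr (Multiplicative.ofAdd (1 : ℤ)))⁻¹
      have : ((Monoid.Coprod.inr (Multiplicative.ofAdd (1 : ℤ)))⁻¹ : DZ.G) =
        Monoid.Coprod.inr ((Multiplicative.ofAdd (1 : ℤ))⁻¹) := (map_inv _ _).symm
      rw [this]
      exact hinr _
    · exact hinr _
    · show PSI_rep (1 / (D : ℝ)) (DZ.zz ((D : ℤ) • v)) = DZ.rep (DZ.zz ((1 : ℤ) • v))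
      rw [one_smul, DZ.rep_zz]
      have h1 : PSI_rep (1 / (D : ℝ)) (DZ.zz ((D : ℤ) • v)) =
        PSI_up (1 / (D : ℝ)) (Multiplicative.ofAdd ((D : ℤ) • v)) :=
        Monoid.Coprod.lift_apply_inl _ _ _
      rw [h1]
      unfold PSI_up
      ext i j
      fin_cases i <;> fin_cases j <;> simp
      field_simp
  exact DFunLike.congr_fun h s

theorem PSI : PSI_stmt := by
  refine ⟨?_, ?_⟩
  · intro D s h
    rw [← PSI_end_val, h, map_one]
  · intro D s hD h
    rw [← PSI_rep_val D hD s, h, map_one]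

end WZ
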