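import Pool.Agent.helper84.WZ.SpecA

/-!
# wz: context-free languages and binary derivation systems (CF)
-/

set_option autoImplicit false

namespace WZ

/-- the lists used as states -/
def CF_G {T : Type} (g : ContextFreeGrammar T) : Set (List (Symbol T g.NT)) :=
  {l | l = [Symbol.nonterminal g.initial] ∨ l = [] ∨ ∃ r ∈ g.rules, l <:+ r.output}

theorem CF_fin {T : Type} (g : ContextFreeGrammar T) : (CF_G g).Finite := by
  have h : CF_G g ⊆ {[Symbol.nonterminal g.initial]} ∪ ({[]} ∪
      ⋃ r ∈ (g.rules : Set (ContextFreeRule T g.NT)), {l | l ∈ r.output.tails}) := by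
    rintro l (h | h | ⟨r, hr, h⟩)
    · exact Or.inl h
    · exact Or.inr (Or.inl h)
    · refine Or.inr (Or.inr ?_)
      rw [Set.mem_iUnion₂]
      exact ⟨r, hr, (List.mem_tails _ _).2 h⟩
  refine Set.Finite.subset ?_ h
  refine (Set.finite_singleton _).union ((Set.finite_singleton _).union ?_)
  refine Set.Finite.biUnion (Finset.finite_toSet _) (fun r _ => ?_)
  exact List.finite_toSet _

/-- the derivation system -/
def CF_S {T : Type} (g : ContextFreeGrammar T) : Sys T where
  St := {l // l ∈ CF_G g}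
  fin := (CF_fin g)
  nl β := β.1 = []
  rd β a γ := β.1 = Symbol.terminal a :: γ.1
  sp β α γ := ∃ r ∈ g.rules, β.1 = Symbol.nonterminal r.input :: γ.1 ∧ α.1 = r.output

/-- derivations from lists -/
inductive CF_D {T : Type} (g : ContextFreeGrammar T) : List (Symbol T g.NT) → List T → Prop
  | nil : CF_D g [] []
  | term (a : T) {γ : List (Symbol T g.NT)} {w : List T} : CF_D g γ w →
      CF_D g (Symbol.terminal a :: γ) (a :: w)
  | nonterm (r : ContextFreeRule T g.NT) (hr : r ∈ g.rules) {γ : List (Symbol T g.NT)}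
      {u v : List T} : CF_D g r.output u → CF_D g γ v →
      CF_D g (Symbol.nonterminal r.input :: γ) (u ++ v)

theorem CF_der {T : Type} (g : ContextFreeGrammar T) (β : (CF_S g).St) (w : List T)
    (h : (CF_S g).Der β w) : g.Derives β.1 (w.map Symbol.terminal) := by
  induction h with
  | @nl β h =>
    have h' : β.1 = [] := h
    rw [h']
    exact Relation.ReflTransGen.refl
  | @rd β γ a w h _ ih =>
    have h' : β.1 = Symbol.terminal a :: γ.1 := h
    rw [h']
    exact ih.append_left [Symbol.terminal a]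
  | @sp β α γ u v h _ _ ih1 ih2 =>
    obtain ⟨r, hr, h1, h2⟩ := h
    rw [h1]
    have h3 : g.Derives (Symbol.nonterminal r.input :: γ.1) (r.output ++ γ.1) :=
      Relation.ReflTransGen.single ⟨r, hr, ContextFreeRule.Rewrites.head _⟩
    refine h3.trans ?_
    rw [← h2, List.map_append]
    exact (ih1.append_right _).trans (ih2.append_left _)

theorem CF_split {T : Type} (g : ContextFreeGrammar T) (v : List (Symbol T g.NT)) :
    ∀ (u : List (Symbol T g.NT)) (w : List T), CF_D g (u ++ v) w →
      ∃ w1 w2, w = w1 ++ w2 ∧ CF_D g u w1 ∧ CF_D g v w2 := by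
  intro u
  induction u with
  | nil =>
    intro w h
    exact ⟨[], w, rfl, CF_D.nil, h⟩
  | cons x u ih =>
    intro w h
    rw [List.cons_append] at h
    cases h with
    | term a h =>
      obtain ⟨w1, w2, e, h1, h2⟩ := ih _ h
      exact ⟨a :: w1, w2, by rw [e]; rfl, CF_D.term a h1, h2⟩
    | nonterm r hr h1 h2 =>
      rename_i u' v'
      obtain ⟨w1, w2, e, h3, h4⟩ := ih _ h2
      exact ⟨u' ++ w1, w2, by rw [e, List.append_assoc], CF_D.nonterm r hr h1 h3, h4⟩

theorem CF_rw {T : Type} (g : ContextFreeGrammar T) (r : ContextFreeRule T g.NT)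
    (hr : r ∈ g.rules) {u u' : List (Symbol T g.NT)} (h : r.Rewrites u u') :
    ∀ w, CF_D g u' w → CF_D g u w := by
  induction h with
  | head s =>
    intro w hw
    obtain ⟨w1, w2, e, h1, h2⟩ := CF_split g s _ w hw
    rw [e]
    exact CF_D.nonterm r hr h1 h2
  | cons x hrs ih =>
    intro w hw
    cases hw with
    | term a h => exact CF_D.term a (ih _ h)
    | nonterm r' hr' h1 h2 => exact CF_D.nonterm r' hr' h1 (ih _ h2)

theorem CF_base {T : Type} (g : ContextFreeGrammar T) (w : List T) :
    CF_D g (w.map Symbol.terminal) w := by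
  induction w with
  | nil => exact CF_D.nil
  | cons a w ih => exact CF_D.term a ih

theorem CF_conv {T : Type} (g : ContextFreeGrammar T) (u : List (Symbol T g.NT)) (w : List T)
    (h : g.Derives u (w.map Symbol.terminal)) : CF_D g u w := by
  induction h using Relation.ReflTransGen.head_induction_on with
  | refl => exact CF_base g w
  | head h _ ih =>
    obtain ⟨r, hr, h⟩ := h
    exact CF_rw g r hr h w ih

theorem CF_tail {T : Type} (g : ContextFreeGrammar T) (x : Symbol T g.NT)
    (γ : List (Symbol T g.NT)) (h : x :: γ ∈ CF_G g) : γ ∈ CF_G g := by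
  rcases h with h | h | ⟨r, hr, h⟩
  · rw [List.cons.injEq] at h
    exact Or.inr (Or.inl h.2)
  · exact absurd h (by simp)
  · exact Or.inr (Or.inr ⟨r, hr, (List.suffix_cons x γ).trans h⟩)

theorem CF_fin' {T : Type} (g : ContextFreeGrammar T) (l : List (Symbol T g.NT)) (w : List T)
    (h : CF_D g l w) : ∀ hl : l ∈ CF_G g, (CF_S g).Der ⟨l, hl⟩ w := by
  induction h with
  | nil =>
    intro hl
    exact Sys.Der.nl rfl
  | @term a γ w _ ih =>
    intro hl
    have hγ := CF_tail g _ _ hl
    exact Sys.Der.rd (S := CF_S g) (γ := (⟨γ, hγ⟩ : {l // l ∈ CF_G g})) rfl (ih hγ)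
  | @nonterm r hr γ u v _ _ ih1 ih2 =>
    intro hl
    have hγ := CF_tail g _ _ hl
    have hr' : r.output ∈ CF_G g := Or.inr (Or.inr ⟨r, hr, List.suffix_refl _⟩)
    exact Sys.Der.sp (S := CF_S g) (α := (⟨r.output, hr'⟩ : {l // l ∈ CF_G g}))
      (γ := (⟨γ, hγ⟩ : {l // l ∈ CF_G g})) ⟨r, hr, rfl, rfl⟩ (ih1 hr') (ih2 hγ)

theorem CF : CF_stmt := by
  intro T L hL
  obtain ⟨g, rfl⟩ := hL
  refine ⟨CF_S g, ⟨[Symbol.nonterminal g.initial], Or.inl rfl⟩, fun w => ?_⟩
  rw [ContextFreeGrammar.mem_language_iff]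
  constructor
  · intro h
    exact CF_fin' g _ w (CF_conv g _ w h) _
  · intro h
    exact CF_der g _ w h

end WZ
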